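import Pool.Agent.Helper331.FT.DP
import Pool.Agent.Helper331.FT.L4
import Pool.Agent.Helper331.FT.L7
import Pool.Agent.Helper331.FT.M6
import Pool.Agent.Helper331.FT.M7
import Pool.Agent.Helper331.FT.N2
import Pool.Agent.Helper331.FT.N3
import Pool.Agent.Helper331.FT.T4
import Pool.Agent.Helper331.FT.T5
import Pool.Agent.Helper331.FT.K10

/-!
# Which flat tori admit isometric immersions into the unit 3-sphere

`Λ = ℤu + ℤv` is `AddSubgroup.closure {u, v}`.
-/

set_option autoImplicit false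

namespace Pool.Agent.Results.MP_cef706_gt.Criterion

open scoped ContDiff

/-- The flat torus `ℝ²/(ℤu + ℤv)` admits a smooth isometric immersion into the unit sphere
of `ℝ⁴`: a smooth lattice-invariant map of the plane with values of norm one whose differential
preserves lengths. -/
def Immersible (u v : EuclideanSpace ℝ (Fin 2)) : Prop :=
  ∃ F : EuclideanSpace ℝ (Fin 2) → EuclideanSpace ℝ (Fin 4),
    ContDiff ℝ ∞ F ∧ (∀ x, ‖F x‖ = 1) ∧ (∀ x w, ‖fderiv ℝ F x w‖ = ‖w‖) ∧
    ∀ x, ∀ p ∈ AddSubgroup.closure {u, v}, F (x + p) = F x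

/-- Any two points of the flat torus `ℝ²/(ℤu + ℤv)` have distance at most `r`. -/
def DiamLE (u v : EuclideanSpace ℝ (Fin 2)) (r : ℝ) : Prop :=
  ∀ x y : EuclideanSpace ℝ (Fin 2), ∃ p ∈ AddSubgroup.closure {u, v}, ‖x - y - p‖ ≤ r

/-- The lattice `ℤu + ℤv` has an orthogonal basis `a, b` with `‖a‖² + ‖b‖² = (2π)²`, that is,
the flat torus is a generalized Clifford torus. -/
def IsClifford (u v : EuclideanSpace ℝ (Fin 2)) : Prop :=
  ∃ a b : EuclideanSpace ℝ (Fin 2), AddSubgroup.closure {a, b} = AddSubgroup.closure {u, v} ∧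
    inner ℝ a b = 0 ∧ ‖a‖ ^ 2 + ‖b‖ ^ 2 = (2 * Real.pi) ^ 2

/-- `u, v` generate a lattice of rank two. -/
def Indep (u v : EuclideanSpace ℝ (Fin 2)) : Prop := LinearIndependent ℝ ![u, v]

/-- The lattice `ℤu + ℤv` is generated by two vectors of length at most `2π`. -/
def TwoPiGenerated (u v : EuclideanSpace ℝ (Fin 2)) : Prop :=
  ∃ a b : EuclideanSpace ℝ (Fin 2), AddSubgroup.closure {a, b} = AddSubgroup.closure {u, v} ∧
    ‖a‖ ≤ 2 * Real.pi ∧ ‖b‖ ≤ 2 * Real.pi

/-- Every nonzero vector of the lattice `ℤu + ℤv` has length at least `l`. -/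
def SystoleGE (u v : EuclideanSpace ℝ (Fin 2)) (l : ℝ) : Prop :=
  ∀ p ∈ AddSubgroup.closure {u, v}, p ≠ 0 → l ≤ ‖p‖

/-- Every nonzero vector of the lattice `ℤu + ℤv` has length larger than `l`. -/
def SystoleGT (u v : EuclideanSpace ℝ (Fin 2)) (l : ℝ) : Prop :=
  ∀ p ∈ AddSubgroup.closure {u, v}, p ≠ 0 → l < ‖p‖

/-- `a, b` are at an angle `θ ∈ [π/3, π/2]`, `‖b‖ ≥ 2πk` and `‖a‖ > 2π cos (θ - π/(4k+2))`. -/
def Wide (k : ℕ) (a b : EuclideanSpace ℝ (Fin 2)) : Prop :=
  2 * Real.pi * k ≤ ‖b‖ ∧ Real.pi / 3 ≤ InnerProductGeometry.angle a b ∧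
    InnerProductGeometry.angle a b ≤ Real.pi / 2 ∧
    2 * Real.pi * Real.cos (InnerProductGeometry.angle a b - Real.pi / (4 * k + 2)) < ‖a‖

theorem imm_iff {u v a b : EuclideanSpace ℝ (Fin 2)}
    (h : AddSubgroup.closure {a, b} = AddSubgroup.closure {u, v}) :
    Immersible a b ↔ Immersible u v := by
  unfold Immersible
  rw [h]

theorem diam_iff {u v a b : EuclideanSpace ℝ (Fin 2)} {r : ℝ}
    (h : AddSubgroup.closure {a, b} = AddSubgroup.closure {u, v}) :
    DiamLE a b r ↔ DiamLE u v r := by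
  unfold DiamLE
  rw [h]

/-- (0) A flat torus admitting a smooth isometric immersion into the unit `S³` has two points at
distance at least `π`; a flat torus of diameter at most `π` admits one iff it is a generalized
Clifford torus. (1) A flat torus generated by two closed geodesics of length at most `2π` admits
one iff its diameter exceeds `π` or it is a generalized Clifford torus. (2) A flat torus of systole
at least `13π/8` admits one iff its diameter exceeds `π`. (3) Every flat torus of systole larger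
than `√3 π` admits one. (4) The constant `√3 π` in (3) is optimal: a flat torus of systole exactly
`√3 π` (the hexagonal one) admits none. (5) For every `l > 0` there is `L` such that every flat
torus of systole at least `l` and diameter more than `L` admits one. (6) Finite coverings of tori
as in (1) of diameter more than `π` admit one. (7) So do the finite coverings of every torus
generated by vectors `a, b` at an angle `θ ∈ [π/3, π/2]` with `‖b‖ ≥ 2πk`, `k ≥ 1`, and
`‖a‖ > 2π cos (θ - π/(4k+2))`. (8) A rectangular torus with both sides longer than `π` admits one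
iff the sum of the squares of its sides is at least `4π²`. -/
theorem result :
    (∀ u v : EuclideanSpace ℝ (Fin 2), Indep u v →
      (Immersible u v → ∃ x y : EuclideanSpace ℝ (Fin 2),
        ∀ p ∈ AddSubgroup.closure {u, v}, Real.pi ≤ ‖x - y - p‖) ∧
      (DiamLE u v Real.pi → (Immersible u v ↔ IsClifford u v))) ∧
    (∀ u v : EuclideanSpace ℝ (Fin 2), Indep u v → TwoPiGenerated u v →
      (Immersible u v ↔ (¬ DiamLE u v Real.pi ∨ IsClifford u v))) ∧
    (∀ u v : EuclideanSpace ℝ (Fin 2), Indep u v →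
      SystoleGE u v (13 * Real.pi / 8) → (Immersible u v ↔ ¬ DiamLE u v Real.pi)) ∧
    (∀ u v : EuclideanSpace ℝ (Fin 2), Indep u v →
      SystoleGT u v (Real.sqrt 3 * Real.pi) → Immersible u v) ∧
    (∃ u v : EuclideanSpace ℝ (Fin 2), Indep u v ∧
      SystoleGE u v (Real.sqrt 3 * Real.pi) ∧ ¬ Immersible u v) ∧
    (∀ l : ℝ, 0 < l → ∃ L : ℝ, ∀ u v : EuclideanSpace ℝ (Fin 2), Indep u v →
      SystoleGE u v l → ¬ DiamLE u v L → Immersible u v) ∧
    (∀ u v a b : EuclideanSpace ℝ (Fin 2), Indep u v →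
      AddSubgroup.closure {u, v} ≤ AddSubgroup.closure {a, b} →
      ‖a‖ ≤ 2 * Real.pi → ‖b‖ ≤ 2 * Real.pi → ¬ DiamLE a b Real.pi → Immersible u v) ∧
    (∀ k : ℕ, 1 ≤ k → ∀ u v a b : EuclideanSpace ℝ (Fin 2), Indep a b →
      AddSubgroup.closure {u, v} ≤ AddSubgroup.closure {a, b} → Wide k a b → Immersible u v) ∧
    (∀ u v : EuclideanSpace ℝ (Fin 2), Indep u v → inner ℝ u v = 0 →
      Real.pi < ‖u‖ → Real.pi < ‖v‖ →
      (Immersible u v ↔ (2 * Real.pi) ^ 2 ≤ ‖u‖ ^ 2 + ‖v‖ ^ 2)) := by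
  have key : ∀ u v : EuclideanSpace ℝ (Fin 2), LinearIndependent ℝ ![u, v] →
      DiamLE u v Real.pi → (Immersible u v ↔ IsClifford u v) := fun u v hli =>
    (Pool.Agent.Helper331.FT.DP.dp_result u v hli).2
  have main : ∀ u v a b : EuclideanSpace ℝ (Fin 2), LinearIndependent ℝ ![u, v] →
      AddSubgroup.closure {u, v} ≤ AddSubgroup.closure {a, b} →
      ‖a‖ ≤ 2 * Real.pi → ‖b‖ ≤ 2 * Real.pi → ¬ DiamLE a b Real.pi → Immersible u v := by
    intro u v a b hli hle ha hb hd
    have hab := Pool.Agent.Helper331.FT.L7 u v a b hli hle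
    obtain ⟨F, h1, h2, h3, h4⟩ := Pool.Agent.Helper331.FT.L4 a b hab ha hb hd
    exact ⟨F, h1, h2, h3, fun x p hp => h4 x p (hle hp)⟩
  have long : ∀ u v : EuclideanSpace ℝ (Fin 2), LinearIndependent ℝ ![u, v] → inner ℝ u v = 0 →
      Real.pi < ‖u‖ → 2 * Real.pi ≤ ‖v‖ → Immersible u v := by
    intro u v hli huv hu hv
    have hang : InnerProductGeometry.angle u v = Real.pi / 2 :=
      InnerProductGeometry.inner_eq_zero_iff_angle_eq_pi_div_two u v |>.1 huv
    have hpi := Real.pi_pos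
    refine Pool.Agent.Helper331.FT.K10 1 le_rfl u v u v hli le_rfl ?_ ?_ ?_ ?_
    · rw [Nat.cast_one, mul_one]; exact hv
    · rw [hang]; linarith
    · rw [hang]
    · rw [hang, Nat.cast_one, show Real.pi / (2 * (2 * 1 + 1)) = Real.pi / 6 by ring,
        Real.cos_pi_div_two_sub, Real.sin_pi_div_six]
      linarith
  refine ⟨fun u v hli => Pool.Agent.Helper331.FT.DP.dp_result u v hli,
    ?_, ?_, ?_, ?_, fun l hl => Pool.Agent.Helper331.FT.N3 l hl, main, ?_, ?_⟩
  · rintro u v hli ⟨a, b, hcl, ha, hb⟩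
    constructor
    · intro h
      by_cases hd : DiamLE u v Real.pi
      · exact Or.inr ((key u v hli hd).1 h)
      · exact Or.inl hd
    · rintro (hd | hc)
      · exact main u v a b hli hcl.ge ha hb (fun h => hd ((diam_iff hcl).1 h))
      · exact Pool.Agent.Helper331.FT.DP.clifford_immersible hli hc
  · intro u v hli hs
    constructor
    · intro h hd
      obtain ⟨a, b, hcl, hab, hsum⟩ := (key u v hli hd).1 h
      have hli' := Pool.Agent.Helper331.FT.L7 u v a b hli hcl.ge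
      have ha0 : a ≠ 0 := by simpa using hli'.ne_zero 0
      have hb0 : b ≠ 0 := by simpa using hli'.ne_zero 1
      have h1 := hs a (by rw [← hcl]; exact AddSubgroup.subset_closure (by simp)) ha0
      have h2 := hs b (by rw [← hcl]; exact AddSubgroup.subset_closure (by simp)) hb0
      have hpi := Real.pi_pos
      have h3 : (13 * Real.pi / 8) ^ 2 ≤ ‖a‖ ^ 2 := pow_le_pow_left₀ (by positivity) h1 2
      have h4 : (13 * Real.pi / 8) ^ 2 ≤ ‖b‖ ^ 2 := pow_le_pow_left₀ (by positivity) h2 2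
      nlinarith [sq_nonneg Real.pi, mul_pos hpi hpi]
    · exact fun hd => Pool.Agent.Helper331.FT.N2 u v hli hs hd
  · exact fun u v hli hs => Pool.Agent.Helper331.FT.M6 u v hli hs
  · obtain ⟨u, v, hu, hv, huv⟩ : ∃ u v : EuclideanSpace ℝ (Fin 2),
        ‖u‖ = Real.sqrt 3 * Real.pi ∧ ‖v‖ = Real.sqrt 3 * Real.pi ∧
        ‖u - v‖ = Real.sqrt 3 * Real.pi := by
      have hpos : 0 ≤ Real.sqrt 3 * Real.pi := by positivity
      have h3 : Real.sqrt 3 ^ 2 = 3 := Real.sq_sqrt (by norm_num)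
      refine ⟨!₂[Real.sqrt 3 * Real.pi, 0],
        !₂[Real.sqrt 3 * Real.pi / 2, 3 * Real.pi / 2], ?_, ?_, ?_⟩
      · rw [EuclideanSpace.norm_eq, Fin.sum_univ_two]
        show Real.sqrt (‖(Real.sqrt 3 * Real.pi : ℝ)‖ ^ 2 + ‖(0 : ℝ)‖ ^ 2) = _
        rw [Real.norm_eq_abs, sq_abs, norm_zero,
          show (Real.sqrt 3 * Real.pi) ^ 2 + (0:ℝ) ^ 2 = (Real.sqrt 3 * Real.pi) ^ 2 by ring,
          Real.sqrt_sq hpos]
      · rw [EuclideanSpace.norm_eq, Fin.sum_univ_two]
        show Real.sqrt (‖(Real.sqrt 3 * Real.pi / 2 : ℝ)‖ ^ 2 + ‖(3 * Real.pi / 2 : ℝ)‖ ^ 2) = _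
        rw [Real.norm_eq_abs, sq_abs, Real.norm_eq_abs, sq_abs,
          show (Real.sqrt 3 * Real.pi / 2) ^ 2 + (3 * Real.pi / 2) ^ 2 = (Real.sqrt 3 * Real.pi) ^ 2 by
          linear_combination (-3 / 4 * Real.pi ^ 2) * h3,
          Real.sqrt_sq hpos]
      · rw [EuclideanSpace.norm_eq, Fin.sum_univ_two]
        show Real.sqrt (‖(Real.sqrt 3 * Real.pi - Real.sqrt 3 * Real.pi / 2 : ℝ)‖ ^ 2 +
          ‖(0 - 3 * Real.pi / 2 : ℝ)‖ ^ 2) = _
        rw [Real.norm_eq_abs, sq_abs, Real.norm_eq_abs, sq_abs,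
          show (Real.sqrt 3 * Real.pi - Real.sqrt 3 * Real.pi / 2) ^ 2 + (0 - 3 * Real.pi / 2) ^ 2 =
            (Real.sqrt 3 * Real.pi) ^ 2 by
          linear_combination (-3 / 4 * Real.pi ^ 2) * h3,
          Real.sqrt_sq hpos]
    obtain ⟨m1, m2, m3, m4⟩ := Pool.Agent.Helper331.FT.M7 u v hu hv huv
    exact ⟨u, v, m1, m3, fun h => m4 ((key u v m1 m2).1 h)⟩
  · rintro k hk u v a b hli hle ⟨h1, h2, h3, h4⟩
    refine Pool.Agent.Helper331.FT.K10 k hk u v a b hli hle h1 h2 h3 ?_
    rw [show (2 * (2 * (k : ℝ) + 1)) = 4 * k + 2 by ring]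
    exact h4
  · intro u v hli huv hu hv
    have hpi := Real.pi_pos
    have hu0 : u ≠ 0 := by simpa using hli.ne_zero 0
    have hv0 : v ≠ 0 := by simpa using hli.ne_zero 1
    constructor
    · intro h
      obtain ⟨x, y, hxy⟩ := (Pool.Agent.Helper331.FT.DP.dp_result u v hli).1 h
      obtain ⟨p, hp, hle⟩ := Pool.Agent.Helper331.FT.T4 u v huv hu0 hv0 (x - y)
      have h1 : 2 * Real.pi ≤ Real.sqrt (‖u‖ ^ 2 + ‖v‖ ^ 2) := by
        have := hxy p hp
        linarith
      have h2 : Real.sqrt (‖u‖ ^ 2 + ‖v‖ ^ 2) ^ 2 = ‖u‖ ^ 2 + ‖v‖ ^ 2 :=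
        Real.sq_sqrt (by positivity)
      rw [← h2]
      exact pow_le_pow_left₀ (by positivity) h1 2
    · intro hS
      by_cases h1 : 2 * Real.pi ≤ ‖v‖
      · exact long u v hli huv hu h1
      by_cases h2 : 2 * Real.pi ≤ ‖u‖
      · have hli' : LinearIndependent ℝ ![v, u] := by
          unfold Indep at hli
          rw [LinearIndependent.pair_iff] at hli ⊢
          intro s t hst
          have := hli t s (by rw [add_comm]; exact hst)
          exact ⟨this.2, this.1⟩
        refine (imm_iff ?_).1 (long v u hli' (by rw [real_inner_comm]; exact huv) hv h2)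
        rw [Set.pair_comm]
      push Not at h1 h2
      rcases eq_or_lt_of_le hS with hS | hS
      · exact Pool.Agent.Helper331.FT.DP.clifford_immersible hli
          ⟨u, v, rfl, huv, hS.symm⟩
      · refine main u v u v hli le_rfl h2.le h1.le ?_
        intro hd
        obtain ⟨p, hp, hle⟩ := hd ((1 / 2 : ℝ) • (u + v)) 0
        rw [sub_zero] at hle
        have h3 := Pool.Agent.Helper331.FT.T5 u v huv p hp
        have h4 : 2 * Real.pi < Real.sqrt (‖u‖ ^ 2 + ‖v‖ ^ 2) := by
          rw [Real.lt_sqrt (by positivity)]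
          exact hS
        linarith

end Pool.Agent.Results.MP_cef706_gt.Criterion
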