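import Pool.Agent.Helper253.Transport

/-!
# Flat tori of intrinsic diameter at most `π` in the unit 3-sphere

`Λ = ℤu + ℤv` is written `AddSubgroup.closure {u, v}`; a map of the flat torus `ℝ²/Λ` is a
`Λ`-invariant map of the plane.
-/

set_option autoImplicit false

namespace Pool.Agent.Results.MP_cef706_gt.DiameterPi

open Topology Set
open scoped ContDiff
open Pool.Agent.Helper253

/-- The flat torus `ℝ²/(ℤu + ℤv)` admits a smooth isometric immersion into the unit sphere
of `ℝ⁴`: a smooth lattice-invariant map of the plane with values of norm one whose differential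
preserves lengths. -/
def Immersible (u v : EuclideanSpace ℝ (Fin 2)) : Prop :=
  ∃ F : EuclideanSpace ℝ (Fin 2) → EuclideanSpace ℝ (Fin 4),
    ContDiff ℝ ∞ F ∧ (∀ x, ‖F x‖ = 1) ∧ (∀ x w, ‖fderiv ℝ F x w‖ = ‖w‖) ∧
    ∀ x, ∀ p ∈ AddSubgroup.closure {u, v}, F (x + p) = F x

/-- Any two points of the flat torus `ℝ²/(ℤu + ℤv)` have distance at most `r`. -/
def DiamLE (u v : EuclideanSpace ℝ (Fin 2)) (r : ℝ) : Prop :=
  ∀ x y : EuclideanSpace ℝ (Fin 2), ∃ p ∈ AddSubgroup.closure {u, v}, ‖x - y - p‖ ≤ r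

/-- The lattice `ℤu + ℤv` has an orthogonal basis `a, b` with `‖a‖² + ‖b‖² = (2π)²`, that is,
the flat torus is a generalized Clifford torus. -/
def IsClifford (u v : EuclideanSpace ℝ (Fin 2)) : Prop :=
  ∃ a b : EuclideanSpace ℝ (Fin 2), AddSubgroup.closure {a, b} = AddSubgroup.closure {u, v} ∧
    inner ℝ a b = 0 ∧ ‖a‖ ^ 2 + ‖b‖ ^ 2 = (2 * Real.pi) ^ 2

theorem isoT_inner (a b : ℂ) : inner ℝ (isoT a) (isoT b) = a.re * b.re + a.im * b.im := by
  rw [isoT.inner_map_map]
  simp only [Complex.inner, Complex.mul_re, Complex.conj_re, Complex.conj_im]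
  ring

/-- Antipodal points and the distance of their preimages. -/
theorem antipodal_far {u v : EuclideanSpace ℝ (Fin 2)} (hli : LinearIndependent ℝ ![u, v])
    (S : Imm) (hper : ∀ x, ∀ p ∈ AddSubgroup.closure {isoT.symm u, isoT.symm v},
      S.f (x + p) = S.f x) :
    ∃ x y : ℂ, S.f y = -S.f x ∧
      ∀ p ∈ AddSubgroup.closure {isoT.symm u, isoT.symm v}, Real.pi ≤ ‖y - x - p‖ := by
  obtain ⟨x, y, hxy⟩ := S.antipodal (cross_ne (li_symm hli))
    (fun z => hper z _ (AddSubgroup.subset_closure (by simp)))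
    (fun z => hper z _ (AddSubgroup.subset_closure (by simp)))
  refine ⟨x, y, hxy, fun p hp => ?_⟩
  apply S.length_ge (y := x)
  have h := hper (x + (y - x - p)) p hp
  rw [← h, ← hxy]
  congr 1
  ring

/-- The classical map of a generalized Clifford torus. -/
theorem clifford_immersible {u v : EuclideanSpace ℝ (Fin 2)} (hli : LinearIndependent ℝ ![u, v])
    (h : IsClifford u v) : Immersible u v := by
  obtain ⟨a, b, hcl, hab, hsum⟩ := h
  have hpi := Real.pi_pos
  have hu : u ∈ AddSubgroup.closure {a, b} := by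
    rw [hcl]; exact AddSubgroup.subset_closure (by simp)
  have hv : v ∈ AddSubgroup.closure {a, b} := by
    rw [hcl]; exact AddSubgroup.subset_closure (by simp)
  rw [AddSubgroup.mem_closure_pair] at hu hv
  obtain ⟨m, n, hmn⟩ := hu
  obtain ⟨m', n', hmn'⟩ := hv
  have hli2 := hli
  rw [LinearIndependent.pair_iff] at hli2
  have ha : a ≠ 0 := by
    intro h0
    rw [h0, smul_zero, zero_add] at hmn hmn'
    have h1 := hli2 (n' : ℝ) (-(n : ℝ)) (by
      rw [← hmn, ← hmn', ← Int.cast_smul_eq_zsmul ℝ, ← Int.cast_smul_eq_zsmul ℝ]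
      module)
    have h2 : n = 0 := by
      have := neg_eq_zero.1 h1.2
      exact_mod_cast this
    rw [h2, zero_smul] at hmn
    have h3 := hli2 1 0 (by rw [← hmn]; simp)
    exact one_ne_zero h3.1
  have hb : b ≠ 0 := by
    intro h0
    rw [h0, smul_zero, add_zero] at hmn hmn'
    have h1 := hli2 (m' : ℝ) (-(m : ℝ)) (by
      rw [← hmn, ← hmn', ← Int.cast_smul_eq_zsmul ℝ, ← Int.cast_smul_eq_zsmul ℝ]
      module)
    have h2 : m = 0 := by
      have := neg_eq_zero.1 h1.2
      exact_mod_cast this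
    rw [h2, zero_smul] at hmn
    have h3 := hli2 1 0 (by rw [← hmn]; simp)
    exact one_ne_zero h3.1
  have hna : 0 < ‖a‖ := norm_pos_iff.2 ha
  have hnb : 0 < ‖b‖ := norm_pos_iff.2 hb
  set ρ : ℝ := ‖a‖ / (2 * Real.pi) with hρ
  set τ : ℝ := ‖b‖ / (2 * Real.pi) with hτ
  set k1 : EuclideanSpace ℝ (Fin 2) →L[ℝ] ℝ := (2 * Real.pi / ‖a‖ ^ 2) • innerSL ℝ a with hk1
  set k2 : EuclideanSpace ℝ (Fin 2) →L[ℝ] ℝ := (2 * Real.pi / ‖b‖ ^ 2) • innerSL ℝ b with hk2
  have k1e : ∀ w, k1 w = 2 * Real.pi / ‖a‖ ^ 2 * inner ℝ a w := fun w => rfl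
  have k2e : ∀ w, k2 w = 2 * Real.pi / ‖b‖ ^ 2 * inner ℝ b w := fun w => rfl
  set F : EuclideanSpace ℝ (Fin 2) → EuclideanSpace ℝ (Fin 4) := fun x =>
    !₂[ρ * Real.cos (k1 x), ρ * Real.sin (k1 x), τ * Real.cos (k2 x), τ * Real.sin (k2 x)] with hF
  have F0 : ∀ x, F x 0 = ρ * Real.cos (k1 x) := fun x => rfl
  have F1 : ∀ x, F x 1 = ρ * Real.sin (k1 x) := fun x => rfl
  have F2 : ∀ x, F x 2 = τ * Real.cos (k2 x) := fun x => rfl
  have F3 : ∀ x, F x 3 = τ * Real.sin (k2 x) := fun x => rfl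
  have hFs : ContDiff ℝ ∞ F := by
    rw [contDiff_euclidean]
    intro i
    fin_cases i
    · exact contDiff_const.mul (k1.contDiff.cos)
    · exact contDiff_const.mul (k1.contDiff.sin)
    · exact contDiff_const.mul (k2.contDiff.cos)
    · exact contDiff_const.mul (k2.contDiff.sin)
  have hρτ : ρ ^ 2 + τ ^ 2 = 1 := by
    rw [hρ, hτ, div_pow, div_pow, ← add_div, hsum]
    exact div_self (by positivity)
  refine ⟨F, hFs, fun x => ?_, fun x w => ?_, fun x p hp => ?_⟩
  · have h1 : ‖F x‖ ^ 2 = 1 := by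
      rw [EuclideanSpace.norm_sq_eq, Fin.sum_univ_four, F0, F1, F2, F3]
      simp only [Real.norm_eq_abs, sq_abs]
      have e1 := Real.sin_sq_add_cos_sq (k1 x)
      have e2 := Real.sin_sq_add_cos_sq (k2 x)
      linear_combination ρ ^ 2 * e1 + τ ^ 2 * e2 + hρτ
    have h2 := norm_nonneg (F x)
    nlinarith
  · have hco : ∀ i : Fin 4, (fderiv ℝ F x w) i = fderiv ℝ (fun x => F x i) x w := by
      intro i
      have h := ((EuclideanSpace.proj i : EuclideanSpace ℝ (Fin 4) →L[ℝ] ℝ).hasFDerivAt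
        (x := F x)).comp x (hFs.differentiable (by simp) x).hasFDerivAt
      have h2 : fderiv ℝ (fun x => F x i) x = _ := h.fderiv
      rw [h2]; rfl
    have d1 : HasFDerivAt (fun x => k1 x) k1 x := k1.hasFDerivAt
    have d2 : HasFDerivAt (fun x => k2 x) k2 x := k2.hasFDerivAt
    have c0 : (fderiv ℝ F x w) 0 = ρ * (-(Real.sin (k1 x)) * k1 w) := by
      rw [hco]
      have : HasFDerivAt (fun x => F x 0) (ρ • (-Real.sin (k1 x) • k1)) x := d1.cos.const_mul ρ
      rw [this.fderiv]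
      rfl
    have c1 : (fderiv ℝ F x w) 1 = ρ * (Real.cos (k1 x) * k1 w) := by
      rw [hco]
      have : HasFDerivAt (fun x => F x 1) (ρ • (Real.cos (k1 x) • k1)) x := d1.sin.const_mul ρ
      rw [this.fderiv]
      rfl
    have c2 : (fderiv ℝ F x w) 2 = τ * (-(Real.sin (k2 x)) * k2 w) := by
      rw [hco]
      have : HasFDerivAt (fun x => F x 2) (τ • (-Real.sin (k2 x) • k2)) x := d2.cos.const_mul τ
      rw [this.fderiv]
      rfl
    have c3 : (fderiv ℝ F x w) 3 = τ * (Real.cos (k2 x) * k2 w) := by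
      rw [hco]
      have : HasFDerivAt (fun x => F x 3) (τ • (Real.cos (k2 x) • k2)) x := d2.sin.const_mul τ
      rw [this.fderiv]
      rfl
    have hnorm : ‖fderiv ℝ F x w‖ ^ 2 = ‖w‖ ^ 2 := by
      rw [EuclideanSpace.norm_sq_eq, Fin.sum_univ_four, c0, c1, c2, c3]
      simp only [Real.norm_eq_abs, sq_abs]
      have e1 := Real.sin_sq_add_cos_sq (k1 x)
      have e2 := Real.sin_sq_add_cos_sq (k2 x)
      have s1 : (ρ * (-Real.sin (k1 x) * k1 w)) ^ 2 + (ρ * (Real.cos (k1 x) * k1 w)) ^ 2 +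
          (τ * (-Real.sin (k2 x) * k2 w)) ^ 2 + (τ * (Real.cos (k2 x) * k2 w)) ^ 2 =
          (ρ * k1 w) ^ 2 + (τ * k2 w) ^ 2 := by
        linear_combination (ρ * k1 w) ^ 2 * e1 + (τ * k2 w) ^ 2 * e2
      rw [s1]
      have t1 : ρ * k1 w = inner ℝ a w / ‖a‖ := by
        rw [k1e, hρ]; field_simp
      have t2 : τ * k2 w = inner ℝ b w / ‖b‖ := by
        rw [k2e, hτ]; field_simp
      rw [t1, t2]
      have n1 : ‖a‖ ^ 2 = a 0 ^ 2 + a 1 ^ 2 := by
        rw [EuclideanSpace.norm_sq_eq, Fin.sum_univ_two]; simp only [Real.norm_eq_abs, sq_abs]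
      have n2 : ‖b‖ ^ 2 = b 0 ^ 2 + b 1 ^ 2 := by
        rw [EuclideanSpace.norm_sq_eq, Fin.sum_univ_two]; simp only [Real.norm_eq_abs, sq_abs]
      have n3 : ‖w‖ ^ 2 = w 0 ^ 2 + w 1 ^ 2 := by
        rw [EuclideanSpace.norm_sq_eq, Fin.sum_univ_two]; simp only [Real.norm_eq_abs, sq_abs]
      have i1 : inner ℝ a w = a 0 * w 0 + a 1 * w 1 := by
        rw [PiLp.inner_apply, Fin.sum_univ_two]; simp [mul_comm]
      have i2 : inner ℝ b w = b 0 * w 0 + b 1 * w 1 := by
        rw [PiLp.inner_apply, Fin.sum_univ_two]; simp [mul_comm]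
      have i3 : inner ℝ a b = a 0 * b 0 + a 1 * b 1 := by
        rw [PiLp.inner_apply, Fin.sum_univ_two]; simp [mul_comm]
      rw [i3] at hab
      rw [div_pow, div_pow, div_add_div _ _ (by positivity) (by positivity),
        div_eq_iff (by positivity), n1, n2, n3, i1, i2]
      linear_combination (2 * (a 0 * w 0 + a 1 * w 1) * (b 0 * w 0 + b 1 * w 1) -
        (w 0 ^ 2 + w 1 ^ 2) * (a 0 * b 0 + a 1 * b 1)) * hab
    have h3 := norm_nonneg (fderiv ℝ F x w)
    have h4 := norm_nonneg w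
    exact (sq_eq_sq₀ h3 h4).1 hnorm
  · rw [← hcl, AddSubgroup.mem_closure_pair] at hp
    obtain ⟨i, j, hij⟩ := hp
    have haa : inner ℝ a a = ‖a‖ ^ 2 := real_inner_self_eq_norm_sq a
    have hbb : inner ℝ b b = ‖b‖ ^ 2 := real_inner_self_eq_norm_sq b
    have hba : inner ℝ b a = 0 := by rw [real_inner_comm]; exact hab
    have q1 : k1 (x + p) = k1 x + i * (2 * Real.pi) := by
      rw [map_add, k1e p, ← hij, ← Int.cast_smul_eq_zsmul ℝ, ← Int.cast_smul_eq_zsmul ℝ,
        inner_add_right, real_inner_smul_right, real_inner_smul_right, haa, hab]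
      field_simp
      ring
    have q2 : k2 (x + p) = k2 x + j * (2 * Real.pi) := by
      rw [map_add, k2e p, ← hij, ← Int.cast_smul_eq_zsmul ℝ, ← Int.cast_smul_eq_zsmul ℝ,
        inner_add_right, real_inner_smul_right, real_inner_smul_right, hbb, hba]
      field_simp
      ring
    simp only [hF]
    rw [q1, q2, Real.cos_add_int_mul_two_pi, Real.sin_add_int_mul_two_pi,
      Real.cos_add_int_mul_two_pi, Real.sin_add_int_mul_two_pi]

/-- The equality case: an immersed flat torus of diameter at most `π` is a Clifford torus. -/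
theorem clifford_of_immersible {u v : EuclideanSpace ℝ (Fin 2)}
    (hli : LinearIndependent ℝ ![u, v]) (hd : DiamLE u v Real.pi) (h : Immersible u v) :
    IsClifford u v := by
  obtain ⟨F, hF, hunit, hiso, hper⟩ := h
  set S := toImm hF hunit hiso with hS
  have hper' : ∀ x, ∀ p ∈ AddSubgroup.closure {isoT.symm u, isoT.symm v},
      S.f (x + p) = S.f x := by
    intro x p hp
    show isoQ.symm (F (isoT (x + p))) = isoQ.symm (F (isoT x))
    rw [map_add, hper]
    rw [lat_transport, isoT.symm_apply_apply]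
    exact hp
  obtain ⟨x, y, hxy, hge⟩ := antipodal_far hli S hper'
  obtain ⟨a, b, hcl, hab, hsum⟩ := rect_of_extremal (z := y - x) (cross_ne (li_symm hli))
    Real.pi_pos hge (fun w => by
      obtain ⟨p, hp, hpr⟩ := hd (isoT w) 0
      refine ⟨isoT.symm p, lat_transport.1 hp, ?_⟩
      rw [sub_zero] at hpr
      have : w - isoT.symm p = isoT.symm (isoT w - p) := by
        rw [map_sub, isoT.symm_apply_apply]
      rw [this, isoT.symm.norm_map]
      exact hpr)
    (by
      have hQ : ∀ p ∈ AddSubgroup.closure {isoT.symm u, isoT.symm v},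
          ‖p - (y - x)‖ = Real.pi → S.Qf ((Real.pi⁻¹ : ℝ) • (p - (y - x))) y = 0 := by
        intro p hp hpr
        apply S.asymptotic
        · rw [norm_smul, hpr, Real.norm_eq_abs, abs_of_pos (inv_pos.2 Real.pi_pos),
            inv_mul_cancel₀ Real.pi_ne_zero]
        · rw [smul_smul, mul_inv_cancel₀ Real.pi_ne_zero, one_smul]
          have : y + (p - (y - x)) = x + p := by ring
          rw [this, hper' x p hp, hxy, neg_neg]
      intro p1 h1 p2 h2 p3 h3 r1 r2 r3
      have key := null_dirs (S.disc y) (hQ p1 h1 r1) (hQ p2 h2 r2) (hQ p3 h3 r3)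
      have hpi : (Real.pi⁻¹ : ℝ) ≠ 0 := inv_ne_zero Real.pi_ne_zero
      simp only [cr_smul_left, cr_smul_right, mul_eq_zero, hpi, false_or] at key
      exact key)
  refine ⟨isoT a, isoT b, ?_, ?_, ?_⟩
  · ext p
    have e1 : p ∈ AddSubgroup.closure {isoT a, isoT b} ↔
        isoT.symm p ∈ AddSubgroup.closure {a, b} := by
      rw [lat_transport, isoT.symm_apply_apply, isoT.symm_apply_apply]
    rw [e1, hcl, ← lat_transport]
  · rw [isoT_inner]; exact hab
  · rw [isoT.norm_map, isoT.norm_map]; exact hsum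

/-- Every flat torus admitting a smooth isometric immersion into the unit 3-sphere has intrinsic
diameter at least `π`; and a flat torus of intrinsic diameter at most `π` admits one if and only
if it is a generalized Clifford torus. -/
theorem result (u v : EuclideanSpace ℝ (Fin 2)) (hli : LinearIndependent ℝ ![u, v]) :
    (Immersible u v → ∃ x y : EuclideanSpace ℝ (Fin 2),
      ∀ p ∈ AddSubgroup.closure {u, v}, Real.pi ≤ ‖x - y - p‖) ∧
    (DiamLE u v Real.pi → (Immersible u v ↔ IsClifford u v)) := by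
  refine ⟨?_, fun hd => ⟨clifford_of_immersible hli hd, clifford_immersible hli⟩⟩
  rintro ⟨F, hF, hunit, hiso, hper⟩
  set S := toImm hF hunit hiso with hS
  have hper' : ∀ x, ∀ p ∈ AddSubgroup.closure {isoT.symm u, isoT.symm v},
      S.f (x + p) = S.f x := by
    intro x p hp
    show isoQ.symm (F (isoT (x + p))) = isoQ.symm (F (isoT x))
    rw [map_add, hper]
    rw [lat_transport, isoT.symm_apply_apply]
    exact hp
  obtain ⟨x, y, -, hge⟩ := antipodal_far hli S hper'
  refine ⟨isoT y, isoT x, fun p hp => ?_⟩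
  have h1 := hge (isoT.symm p) (lat_transport.1 hp)
  have h2 : isoT y - isoT x - p = isoT (y - x - isoT.symm p) := by
    rw [map_sub, map_sub, isoT.apply_symm_apply]
  rw [h2, isoT.norm_map]
  exact h1

end Pool.Agent.Results.MP_cef706_gt.DiameterPi
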